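import Mathlib
import Pool.Agent.OSD.St5
import Pool.Agent.OSD.Rnf
import Pool.Agent.OSD.Trv

open Module
open scoped LinearAlgebra.Projectivization

namespace Pool.Agent.Results.MP_f2094b_co.OneSided

open Classical in
/-- The number of points of the point set `U` of `PG(n,q)` on the subspace `H`. -/
noncomputable def meet {F : Type} [Field F] {n : ℕ} (U : Finset (ℙ F (Fin (n + 1) → F)))
    (H : Submodule F (Fin (n + 1) → F)) : ℕ :=
  (U.filter (fun p => p.submodule ≤ H)).card

/-- `f(n,q,m)`: the maximum, over all sets `U` of `m` points, of the minimum of `|U ∩ H|` over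
all hyperplanes `H`. -/
noncomputable def f (F : Type) [Field F] (n m : ℕ) : ℕ :=
  sSup {b : ℕ | ∃ U : Finset (ℙ F (Fin (n + 1) → F)), U.card = m ∧
    IsLeast {c : ℕ | ∃ H : Submodule F (Fin (n + 1) → F), finrank F H = n ∧ meet U H = c} b}

/-- `g(n,q,m)`: the minimum, over all sets `U` of `m` points, of the maximum of `|U ∩ H|` over
all hyperplanes `H`. -/
noncomputable def g (F : Type) [Field F] (n m : ℕ) : ℕ :=
  sInf {a : ℕ | ∃ U : Finset (ℙ F (Fin (n + 1) → F)), U.card = m ∧
    IsGreatest {c : ℕ | ∃ H : Submodule F (Fin (n + 1) → F), finrank F H = n ∧ meet U H = c} a}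

/-- The number of points of `PG(n,q)` that lie in exactly one of the point set `U` and the
subspace `W`. -/
noncomputable def diff {F : Type} [Field F] {n : ℕ} (U : Finset (ℙ F (Fin (n + 1) → F)))
    (W : Submodule F (Fin (n + 1) → F)) : ℕ :=
  {p : ℙ F (Fin (n + 1) → F) | ¬ (p ∈ U ↔ p.submodule ≤ W)}.ncard

/-- The number `|(q-1)m + 1 - q^u|`: it is `q - 1` times the difference between `m` and the number
of points of a subspace of vector space dimension `u`. -/
def dst (F : Type) [Field F] [Fintype F] (m u : ℕ) : ℕ :=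
  (((Fintype.card F : ℤ) - 1) * m + 1 - (Fintype.card F : ℤ) ^ u).natAbs

/-- The bounds satisfied by a distance `D` when the one-sided deviation is `j`. -/
def Near (F : Type) [Field F] [Fintype F] (C n m j D : ℕ) : Prop :=
  D * m ≤ C * (j + 1) ^ 2 * Fintype.card F ^ n ∧
    ∀ r : ℕ, r ≤ D → D ^ (4 * r) ≤ Fintype.card F ^ n →
      r * D * m ^ 2 ≤ C * ((j + 1) * Fintype.card F ^ n) ^ 2

/-- The range of the lower bounds: `((j+1) q^n / m)^B ≤ q^n` with `B = 10 + 4 ⌈log_2 q⌉`. -/
def InRange (F : Type) [Field F] [Fintype F] (n m j : ℕ) : Prop :=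
  ((j + 1) * Fintype.card F ^ n) ^ (10 + 4 * Nat.clog 2 (Fintype.card F)) ≤
    m ^ (10 + 4 * Nat.clog 2 (Fintype.card F)) * Fintype.card F ^ n

/-- One-sided deviations of hyperplane intersections from `m / q`: lower bounds, stability and
constructions. -/
theorem result (F : Type) [Field F] [Fintype F] : ∃ C : ℕ,
    (∀ n m j : ℕ, ∀ U : Finset (ℙ F (Fin (n + 1) → F)), U.card = m →
      (∀ H : Submodule F (Fin (n + 1) → F), finrank F H = n →
        m ≤ Fintype.card F * meet U H + j) →
      InRange F n m j →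
      ∃ W : Submodule F (Fin (n + 1) → F), Near F C n m j (diff U W)) ∧
    (∀ n m j : ℕ, (Fintype.card F - 1) * m < Fintype.card F ^ (n + 1) →
      m ≤ Fintype.card F * f F n m + j →
      InRange F n m j →
      ∃ u : ℕ, u ≤ n + 1 ∧ Near F C n m j (dst F m u)) ∧
    (∀ n m m' j : ℕ, (Fintype.card F - 1) * (m + m') + 1 = Fintype.card F ^ (n + 1) →
      Fintype.card F * g F n m + 1 ≤ m + j →
      InRange F n m' j →
      ∃ u : ℕ, u ≤ n + 1 ∧ Near F C n m' j (dst F m' u)) ∧
    (∀ n m u : ℕ, (Fintype.card F - 1) * m < Fintype.card F ^ (n + 1) → u ≤ n + 1 →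
      (m : ℝ) ≤ Fintype.card F * f F n m + 1 +
        min (dst F m u : ℝ) (8 * (Fintype.card F : ℝ) ^ 2 * Real.sqrt ((n + 1) * dst F m u))) ∧
    (∀ n m m' u : ℕ, (Fintype.card F - 1) * (m + m') + 1 = Fintype.card F ^ (n + 1) →
      u ≤ n + 1 →
      (Fintype.card F : ℝ) * g F n m ≤ m +
        min (dst F m' u : ℝ) (8 * (Fintype.card F : ℝ) ^ 2 * Real.sqrt ((n + 1) * dst F m' u))) := by
  classical
  obtain ⟨C, hC, hmain⟩ := Pool.Agent.OSD.pg_stab5 F
  have hq2 : 2 ≤ Fintype.card F := Fintype.one_lt_card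
  -- the conclusion for a set of points
  have hset : ∀ (n m j : ℕ) (U : Finset (ℙ F (Fin (n + 1) → F))), U.card = m →
      (∀ H : Submodule F (Fin (n + 1) → F), finrank F H = n →
        m ≤ Fintype.card F * (U.filter (fun p => p.submodule ≤ H)).card + j) →
      InRange F n m j →
      ∃ W : Submodule F (Fin (n + 1) → F), diff U W * m ≤ C * (j + 1) ^ 2 * Fintype.card F ^ n ∧
        ∀ r : ℕ, r ≤ diff U W → diff U W ^ (2 * r) ≤ Fintype.card F ^ n →
          r * diff U W * m ^ 2 ≤ C * ((j + 1) * Fintype.card F ^ n) ^ 2 := by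
    intro n m j U hU hH hreg
    letI : Fintype (ℙ F (Fin (n + 1) → F)) := Fintype.ofFinite _
    obtain ⟨W, D, hD, hW⟩ := hmain n m j U hU hH hreg
    refine ⟨W, ?_⟩
    have hdiff : diff U W = D := by
      rw [hD]
      unfold diff
      rw [Set.ncard_eq_toFinset_card']
      congr 1
      ext p
      simp only [Set.mem_toFinset, Set.mem_setOf_eq, Finset.mem_union, Finset.mem_sdiff,
        Finset.mem_filter, Finset.mem_univ, true_and]
      tauto
    rw [hdiff]
    exact hW
  -- numerical consequence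
  have hnum : ∀ (n m j : ℕ) (U : Finset (ℙ F (Fin (n + 1) → F))), U.card = m →
      (∀ H : Submodule F (Fin (n + 1) → F), finrank F H = n →
        m ≤ Fintype.card F * (U.filter (fun p => p.submodule ≤ H)).card + j) →
      InRange F n m j →
      ∃ u : ℕ, u ≤ n + 1 ∧
        Near F (Fintype.card F ^ 2 * C) n m j (dst F m u) := by
    intro n m j U hU hH hreg
    letI : Fintype (ℙ F (Fin (n + 1) → F)) := Fintype.ofFinite _
    obtain ⟨W, D, hD, hW1, hW2⟩ := hmain n m j U hU hH hreg
    have hP := Pool.Agent.Strip.MH.mh_card (F := F) W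
    have hall := Pool.Agent.Strip.MH.mh_card (F := F) (V := Fin (n + 1) → F) ⊤
    rw [finrank_top, Module.finrank_fin_fun,
      Finset.filter_true_of_mem (fun p _ => le_top)] at hall
    have hmall : m ≤ (Finset.univ : Finset (ℙ F (Fin (n + 1) → F))).card := by
      rw [← hU]
      exact Finset.card_le_card (Finset.subset_univ _)
    refine ⟨finrank F W, ?_, ?_⟩
    · have h1 := Submodule.finrank_le W
      rw [Module.finrank_fin_fun] at h1
      exact h1
    generalize hPf : (Finset.univ.filter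
      (fun p : ℙ F (Fin (n + 1) → F) => p.submodule ≤ W)) = Pf at hD hP
    have hD1 : m ≤ Pf.card + D := by
      rw [← hU, hD]
      refine (Finset.card_le_card ?_).trans (Finset.card_union_le _ _)
      intro p hp
      simp only [Finset.mem_union, Finset.mem_sdiff]
      tauto
    have hD2 : Pf.card ≤ m + D := by
      rw [← hU, hD]
      refine (Finset.card_le_card ?_).trans (Finset.card_union_le _ _)
      intro p hp
      simp only [Finset.mem_union, Finset.mem_sdiff]
      tauto
    generalize Pf.card = P at hP hD1 hD2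
    generalize (Finset.univ : Finset (ℙ F (Fin (n + 1) → F))).card = T at hall hmall
    generalize finrank F W = u at hP
    have hdst : dst F m u ≤ (Fintype.card F - 1) * D := by
      unfold dst
      obtain ⟨Q, hQ⟩ : ∃ Q, Fintype.card F = Q + 1 := ⟨Fintype.card F - 1, by omega⟩
      rw [hQ] at hP ⊢
      simp only [Nat.add_sub_cancel] at hP ⊢
      have h1 : ((Q + 1 : ℕ) : ℤ) ^ u = Q * P + 1 := by exact_mod_cast hP.symm
      have h0 : (((Q + 1 : ℕ) : ℤ) - 1) * m + 1 - ((Q + 1 : ℕ) : ℤ) ^ u =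
          ((Q : ℕ) : ℤ) * ((m : ℤ) - P) := by
        rw [h1]
        push_cast
        ring
      rw [h0, Int.natAbs_mul, Int.natAbs_natCast]
      refine Nat.mul_le_mul_left _ ?_
      omega
    have hmq : m ≤ Fintype.card F * Fintype.card F ^ n := by
      rw [← pow_succ', ← hall]
      have h1 : T ≤ (Fintype.card F - 1) * T := Nat.le_mul_of_pos_left T (by omega)
      omega
    generalize dst F m u = δ at hdst ⊢
    clear hall hmall hP hD1 hD2 hD hPf hH hU hreg
    obtain ⟨Q, hQ⟩ : ∃ Q, Fintype.card F = Q + 1 := ⟨Fintype.card F - 1, by omega⟩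
    have hQ1 : 1 ≤ Q := by omega
    unfold Near
    rw [hQ] at hdst hW1 hW2 hmq ⊢
    simp only [Nat.add_sub_cancel] at hdst
    generalize (Q + 1) ^ n = N at hW1 hW2 hmq ⊢
    have hQsq : Q * Q ≤ (Q + 1) ^ 2 := by nlinarith
    refine ⟨?_, ?_⟩
    · calc δ * m ≤ (Q * D) * m := Nat.mul_le_mul_right _ hdst
        _ = Q * (D * m) := by ring
        _ ≤ Q * (C * (j + 1) ^ 2 * N) := Nat.mul_le_mul_left _ hW1
        _ ≤ (Q + 1) ^ 2 * (C * (j + 1) ^ 2 * N) := Nat.mul_le_mul_right _ (by nlinarith)
        _ = (Q + 1) ^ 2 * C * (j + 1) ^ 2 * N := by ring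
    · intro r hr hrδ
      rcases Nat.eq_zero_or_pos r with h0 | hr1
      · subst h0
        simp
      have hδ1 : 1 ≤ δ := le_trans hr1 hr
      rcases Nat.lt_or_ge (δ ^ 2) D with hcase | hcase
      · calc r * δ * m ^ 2 ≤ δ * δ * m ^ 2 :=
              Nat.mul_le_mul_right _ (Nat.mul_le_mul_right _ hr)
          _ = δ ^ 2 * m * m := by ring
          _ ≤ D * m * m := Nat.mul_le_mul_right _ (Nat.mul_le_mul_right _ hcase.le)
          _ ≤ (C * (j + 1) ^ 2 * N) * ((Q + 1) * N) := Nat.mul_le_mul hW1 hmq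
          _ = (Q + 1) * (C * ((j + 1) * N) ^ 2) := by ring
          _ ≤ (Q + 1) ^ 2 * (C * ((j + 1) * N) ^ 2) := Nat.mul_le_mul_right _ (by nlinarith)
          _ = (Q + 1) ^ 2 * C * ((j + 1) * N) ^ 2 := by ring
      · have h1 : D ^ (2 * min r D) ≤ N := by
          calc D ^ (2 * min r D) ≤ (δ ^ 2) ^ (2 * min r D) := Nat.pow_le_pow_left hcase _
            _ ≤ (δ ^ 2) ^ (2 * r) :=
                Nat.pow_le_pow_right (by positivity) (Nat.mul_le_mul_left _ (min_le_left _ _))
            _ = δ ^ (4 * r) := by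
                rw [← pow_mul]
                congr 1
                ring
            _ ≤ N := hrδ
        have h2 := hW2 (min r D) (min_le_right _ _) h1
        have h3 : r ≤ Q * min r D := by
          rcases le_total r D with h | h
          · rw [min_eq_left h]
            exact Nat.le_mul_of_pos_left r hQ1
          · rw [min_eq_right h]
            exact hr.trans hdst
        calc r * δ * m ^ 2 ≤ (Q * min r D) * (Q * D) * m ^ 2 :=
              Nat.mul_le_mul_right _ (Nat.mul_le_mul h3 hdst)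
          _ = (Q * Q) * (min r D * D * m ^ 2) := by ring
          _ ≤ (Q + 1) ^ 2 * (C * ((j + 1) * N) ^ 2) := Nat.mul_le_mul hQsq h2
          _ = (Q + 1) ^ 2 * C * ((j + 1) * N) ^ 2 := by ring
  -- sizes of spaces
  have hsize : ∀ n m m' : ℕ, (Fintype.card F - 1) * (m + m') + 1 = Fintype.card F ^ (n + 1) →
      ∃ s, (Fintype.card F - 1) * s + 1 = Fintype.card F ^ n ∧
        m + m' = Fintype.card F * s + 1 := by
    intro n m m' hmm
    obtain ⟨s, hs⟩ : ∃ s, (Fintype.card F - 1) * s + 1 = Fintype.card F ^ n := by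
      have h1 : (Fintype.card F - 1) ∣ Fintype.card F ^ n - 1 := by
        simpa using Nat.sub_dvd_pow_sub_pow (Fintype.card F) 1 n
      obtain ⟨s, hs⟩ := h1
      refine ⟨s, ?_⟩
      rw [← hs]
      have : 1 ≤ Fintype.card F ^ n := Nat.one_le_pow _ _ (by omega)
      omega
    refine ⟨s, hs, ?_⟩
    obtain ⟨Q, hQ⟩ : ∃ Q, Fintype.card F = Q + 1 := ⟨Fintype.card F - 1, by omega⟩
    have hQ1 : 1 ≤ Q := by omega
    have h1 : (Fintype.card F - 1) * (Fintype.card F * s + 1) + 1 = Fintype.card F ^ (n + 1) := by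
      rw [pow_succ, ← hs, hQ]
      simp only [Nat.add_sub_cancel]
      ring
    have h2 : (Fintype.card F - 1) * (m + m') =
        (Fintype.card F - 1) * (Fintype.card F * s + 1) := by omega
    exact Nat.eq_of_mul_eq_mul_left (by omega) h2
  have hcast : ∀ m u : ℕ, (dst F m u : ℝ) =
      |((Fintype.card F : ℝ) - 1) * m + 1 - (Fintype.card F : ℝ) ^ u| := by
    intro m u
    unfold dst
    rw [Nat.cast_natAbs]
    push_cast
    rfl
  -- sets with small deviation
  have hup : ∀ (n m u : ℕ), (Fintype.card F - 1) * m < Fintype.card F ^ (n + 1) → u ≤ n + 1 →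
      ∀ R : ℝ, R = min (dst F m u : ℝ)
        (8 * (Fintype.card F : ℝ) ^ 2 * Real.sqrt ((n + 1) * dst F m u)) →
      ∃ U : Finset (ℙ F (Fin (n + 1) → F)), U.card = m ∧
        ∀ H : Submodule F (Fin (n + 1) → F), finrank F H = n →
          (m : ℝ) ≤ Fintype.card F * (U.filter (fun p => p.submodule ≤ H)).card + 1 + R := by
    intro n m u hm hu R hR
    letI : Fintype (ℙ F (Fin (n + 1) → F)) := Fintype.ofFinite _
    rw [hcast] at hR
    rcases min_choice |((Fintype.card F : ℝ) - 1) * m + 1 - (Fintype.card F : ℝ) ^ u|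
        (8 * (Fintype.card F : ℝ) ^ 2 * Real.sqrt ((n + 1) *
          |((Fintype.card F : ℝ) - 1) * m + 1 - (Fintype.card F : ℝ) ^ u|)) with h | h
    · rw [hR, h]
      exact Pool.Agent.OSD.pg_upper0 F n m u hm hu
    · rw [hR, h]
      exact Pool.Agent.OSD.pg_upper F n m u hm hu
  have hR0 : ∀ n m u : ℕ, 0 ≤ min (dst F m u : ℝ)
        (8 * (Fintype.card F : ℝ) ^ 2 * Real.sqrt (((n : ℝ) + 1) * dst F m u)) := by
    intro n m u
    exact le_min (Nat.cast_nonneg _) (by positivity)
  refine ⟨Fintype.card F ^ 2 * C, ?_, ?_, ?_, ?_, ?_⟩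
  · intro n m j U hU hH hreg
    obtain ⟨W, hW1, hW2⟩ := hset n m j U hU hH hreg
    have hCC : C ≤ Fintype.card F ^ 2 * C := Nat.le_mul_of_pos_left C (by positivity)
    refine ⟨W, hW1.trans (Nat.mul_le_mul_right _ (Nat.mul_le_mul_right _ hCC)), ?_⟩
    intro r hr hrD
    rcases Nat.eq_zero_or_pos r with h0 | hr1
    · subst h0
      simp
    refine (hW2 r hr (le_trans ?_ hrD)).trans (Nat.mul_le_mul_right _ hCC)
    exact Nat.pow_le_pow_right (lt_of_lt_of_le hr1 hr) (by omega)
  · intro n m j hm hf hreg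
    obtain ⟨U, hU, hH⟩ := (Pool.Agent.Strip.MH.mh_max_iff F n m (f F n m) hm).mp (le_refl _)
    refine hnum n m j U hU (fun H hHn => ?_) hreg
    have h1 := Nat.mul_le_mul_left (Fintype.card F) (hH H hHn)
    omega
  · intro n m m' j hmm hg hreg
    letI : Fintype (ℙ F (Fin (n + 1) → F)) := Fintype.ofFinite _
    have hm : (Fintype.card F - 1) * m < Fintype.card F ^ (n + 1) := by
      rw [mul_add] at hmm
      omega
    obtain ⟨s, hs, hts⟩ := hsize n m m' hmm
    have h1 := (Pool.Agent.Strip.MH.mh_min_iff F n m (g F n m) hm).mp (le_refl _)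
    obtain ⟨U, hU, hH⟩ := (Pool.Agent.Strip.MH.mh_compl F n m (g F n m) hs hmm (by omega)).mp h1
    have hU' : U.card = m' := by
      rw [hU]
      omega
    refine hnum n m' j U hU' (fun H hHn => ?_) hreg
    have h2 : s ≤ g F n m + (U.filter (fun p => p.submodule ≤ H)).card := by
      have := hH H hHn
      omega
    have h3 := Nat.mul_le_mul_left (Fintype.card F) h2
    rw [mul_add] at h3
    omega
  · intro n m u hm hu
    obtain ⟨U, hU, hH⟩ := hup n m u hm hu _ rfl
    generalize min (dst F m u : ℝ)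
        (8 * (Fintype.card F : ℝ) ^ 2 * Real.sqrt (((n : ℝ) + 1) * dst F m u)) = R at hH ⊢
    have hqR : (0 : ℝ) < Fintype.card F := by
      have : 0 < Fintype.card F := by omega
      exact_mod_cast this
    have h1 : ⌈((m : ℝ) - 1 - R) / Fintype.card F⌉₊ ≤ f F n m := by
      refine (Pool.Agent.Strip.MH.mh_max_iff F n m _ hm).mpr ⟨U, hU, fun H hHn => ?_⟩
      rw [Nat.ceil_le, div_le_iff₀ hqR]
      have := hH H hHn
      linarith
    have h2 : ((m : ℝ) - 1 - R) / Fintype.card F ≤ f F n m :=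
      (Nat.le_ceil _).trans (by exact_mod_cast h1)
    rw [div_le_iff₀ hqR] at h2
    linarith
  · intro n m m' u hmm hu
    letI : Fintype (ℙ F (Fin (n + 1) → F)) := Fintype.ofFinite _
    have hm : (Fintype.card F - 1) * m < Fintype.card F ^ (n + 1) := by
      rw [mul_add] at hmm
      omega
    have hm' : (Fintype.card F - 1) * m' < Fintype.card F ^ (n + 1) := by
      rw [mul_add] at hmm
      omega
    obtain ⟨s, hs, hts⟩ := hsize n m m' hmm
    obtain ⟨U, hU, hH⟩ := hup n m' u hm' hu _ rfl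
    have hR := hR0 n m' u
    generalize min (dst F m' u : ℝ)
        (8 * (Fintype.card F : ℝ) ^ 2 * Real.sqrt (((n : ℝ) + 1) * dst F m' u)) = R at hH hR ⊢
    have hqR : (0 : ℝ) < Fintype.card F := by
      have : 0 < Fintype.card F := by omega
      exact_mod_cast this
    obtain ⟨b, hb⟩ : ∃ b : ℕ, b = ⌈((m' : ℝ) - 1 - R) / Fintype.card F⌉₊ := ⟨_, rfl⟩
    have h1 : g F n m ≤ s - b := by
      refine (Pool.Agent.Strip.MH.mh_min_iff F n m _ hm).mpr ?_
      refine (Pool.Agent.Strip.MH.mh_compl F n m (s - b) hs hmm (by omega)).mpr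
        ⟨U, by rw [hU]; omega, fun H hHn => ?_⟩
      have h3 : b ≤ (U.filter (fun p => p.submodule ≤ H)).card := by
        rw [hb, Nat.ceil_le, div_le_iff₀ hqR]
        have := hH H hHn
        linarith
      omega
    have h2 : ((m' : ℝ) - 1 - R) / Fintype.card F ≤ b := by
      rw [hb]
      exact Nat.le_ceil _
    rw [div_le_iff₀ hqR] at h2
    have htsR : (m : ℝ) + m' = Fintype.card F * s + 1 := by exact_mod_cast hts
    rcases le_total b s with hbs | hbs
    · have h4 : (g F n m : ℝ) ≤ s - b := by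
        have : ((g F n m : ℕ) : ℝ) ≤ ((s - b : ℕ) : ℝ) := by exact_mod_cast h1
        rw [Nat.cast_sub hbs] at this
        exact this
      have h5 := mul_le_mul_of_nonneg_left h4 hqR.le
      linarith
    · have h4 : g F n m = 0 := by omega
      rw [h4, Nat.cast_zero, mul_zero]
      have : (0 : ℝ) ≤ m := Nat.cast_nonneg _
      linarith

end Pool.Agent.Results.MP_f2094b_co.OneSided
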