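import Mathlib
import Pool.Agent.Strip.MinihyperFinal

open Module
open scoped LinearAlgebra.Projectivization

namespace Pool.Agent.Results.MP_f2094b_co.Strip

open Classical in
/-- The number of points of the point set `U` of `PG(n,q)` on the hyperplane `H`. -/
noncomputable def meet {F : Type} [Field F] {n : ℕ} (U : Finset (ℙ F (Fin (n + 1) → F)))
    (H : Submodule F (Fin (n + 1) → F)) : ℕ :=
  (U.filter (fun p => p.submodule ≤ H)).card

/-- `f(n,q,m)`: the maximum, over all sets `U` of `m` points, of the minimum of `|U ∩ H|` over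
all hyperplanes `H`. -/
noncomputable def f (F : Type) [Field F] (n m : ℕ) : ℕ :=
  sSup {b : ℕ | ∃ U : Finset (ℙ F (Fin (n + 1) → F)), U.card = m ∧
    IsLeast {c : ℕ | ∃ H : Submodule F (Fin (n + 1) → F), finrank F H = n ∧ meet U H = c} b}

/-- `g(n,q,m)`: the minimum, over all sets `U` of `m` points, of the maximum of `|U ∩ H|` over
all hyperplanes `H`. -/
noncomputable def g (F : Type) [Field F] (n m : ℕ) : ℕ :=
  sInf {a : ℕ | ∃ U : Finset (ℙ F (Fin (n + 1) → F)), U.card = m ∧
    IsGreatest {c : ℕ | ∃ H : Submodule F (Fin (n + 1) → F), finrank F H = n ∧ meet U H = c} a}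

/-- Exact determination of `f` and `g` as long as they differ from `m / q` by at most
`(n + 1) / (4000 q)`. -/
theorem result (F : Type) [Field F] [Fintype F] (n m M : ℕ)
    (hm : (Fintype.card F - 1) * m < Fintype.card F ^ (n + 1)) (hM : 4000 * M ≤ n + 1) :
    (∀ b : ℕ, m = Fintype.card F * b + M →
      ((Fintype.card F).Prime ∨
        Fintype.card F * m ≤ Fintype.card F * b + Fintype.card F ^ ((n + 1) / 2) ∨
        Fintype.card F * b + Fintype.card F ^ ((n + 2) / 2 + 4000 * M) ≤ Fintype.card F * m) →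
      (b ≤ f F n m ↔
        ∃ r : ℕ, r ≤ M ∧ ∃ u : Fin r → ℕ, (∀ i j, i ≠ j → u i + u j ≤ n + 1) ∧
          Fintype.card F * m = Fintype.card F * b + ∑ i, Fintype.card F ^ u i)) ∧
    (∀ a : ℕ, Fintype.card F * a + 1 = m + M → (Fintype.card F - 1) * a < Fintype.card F ^ n →
      ((Fintype.card F).Prime ∨
        Fintype.card F ^ (n + 1) + Fintype.card F * a ≤
          Fintype.card F * m + Fintype.card F ^ ((n + 1) / 2) ∨
        Fintype.card F * m + Fintype.card F ^ ((n + 2) / 2 + 4000 * M) ≤
          Fintype.card F ^ (n + 1) + Fintype.card F * a) →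
      (g F n m ≤ a ↔
        ∃ r : ℕ, r ≤ M ∧ ∃ u : Fin r → ℕ, (∀ i j, i ≠ j → u i + u j ≤ n + 1) ∧
          Fintype.card F ^ (n + 1) + Fintype.card F * a =
            Fintype.card F * m + ∑ i, Fintype.card F ^ u i)) := by
  classical
  letI : Fintype (ℙ F (Fin (n + 1) → F)) := Fintype.ofFinite _
  have hq2 : 2 ≤ Fintype.card F := Fintype.one_lt_card
  constructor
  · intro b hb hq
    exact (Pool.Agent.Strip.MH.mh_max_iff F n m b hm).trans
      (Pool.Agent.Strip.MH.mh_iff F n m b M hb hM hq hm)
  · intro a ha ha2 hq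
    obtain ⟨Q, hQ⟩ : ∃ Q, Fintype.card F = Q + 1 := ⟨Fintype.card F - 1, by omega⟩
    have hQ1 : 1 ≤ Q := by omega
    obtain ⟨s, hs⟩ : ∃ s, (Fintype.card F - 1) * s + 1 = Fintype.card F ^ n := by
      have h1 : (Fintype.card F - 1) ∣ Fintype.card F ^ n - 1 := by
        simpa using Nat.sub_dvd_pow_sub_pow (Fintype.card F) 1 n
      obtain ⟨s, hs⟩ := h1
      refine ⟨s, ?_⟩
      rw [← hs]
      have : 1 ≤ Fintype.card F ^ n := Nat.one_le_pow _ _ (by omega)
      omega
    have ht : (Fintype.card F - 1) * (Fintype.card F * s + 1) + 1 = Fintype.card F ^ (n + 1) := by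
      rw [pow_succ, ← hs, hQ]
      simp only [Nat.add_sub_cancel]
      ring
    have hmt : m ≤ Fintype.card F * s + 1 := by
      have h1 : (Fintype.card F - 1) * m ≤ (Fintype.card F - 1) * (Fintype.card F * s + 1) := by
        omega
      exact Nat.le_of_mul_le_mul_left h1 (by omega)
    have has : a ≤ s := by
      have h1 : (Fintype.card F - 1) * a ≤ (Fintype.card F - 1) * s := by omega
      exact Nat.le_of_mul_le_mul_left h1 (by omega)
    obtain ⟨w, rfl⟩ := Nat.exists_eq_add_of_le has
    obtain ⟨v, hv⟩ := Nat.exists_eq_add_of_le hmt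
    have hvm : Fintype.card F * (a + w) + 1 - m = v := by omega
    have haw : a + w - a = w := by omega
    have hvw : v = Fintype.card F * w + M := by
      rw [mul_add] at hv
      omega
    have hqn : Fintype.card F ^ (n + 1) + Fintype.card F * (a + w) =
        Fintype.card F * (Fintype.card F * (a + w) + 1) := by
      rw [← ht, hQ]
      simp only [Nat.add_sub_cancel]
      ring
    have hqn2 : Fintype.card F ^ (n + 1) + Fintype.card F * a + Fintype.card F * w =
        Fintype.card F * m + Fintype.card F * v := by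
      rw [← mul_add, ← hv, ← hqn]
      ring
    have hv2 : (Fintype.card F - 1) * v < Fintype.card F ^ (n + 1) := by
      have h1 : v ≤ Fintype.card F * (a + w) + 1 := by omega
      have h2 : (Fintype.card F - 1) * v ≤
          (Fintype.card F - 1) * (Fintype.card F * (a + w) + 1) := Nat.mul_le_mul_left _ h1
      omega
    have hq' : (Fintype.card F).Prime ∨
        Fintype.card F * v ≤ Fintype.card F * w + Fintype.card F ^ ((n + 1) / 2) ∨
        Fintype.card F * w + Fintype.card F ^ ((n + 2) / 2 + 4000 * M) ≤ Fintype.card F * v := by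
      rcases hq with h | h | h
      · exact Or.inl h
      · exact Or.inr (Or.inl (by omega))
      · exact Or.inr (Or.inr (by omega))
    have h1 := Pool.Agent.Strip.MH.mh_min_iff F n m a hm
    have h2 := Pool.Agent.Strip.MH.mh_compl F n m a hs ht hmt
    rw [hvm, haw] at h2
    have h3 := Pool.Agent.Strip.MH.mh_iff F n v w M hvw hM hq' hv2
    have h4 : (∃ r : ℕ, r ≤ M ∧ ∃ u : Fin r → ℕ, (∀ i j, i ≠ j → u i + u j ≤ n + 1) ∧
          Fintype.card F * v = Fintype.card F * w + ∑ i, Fintype.card F ^ u i) ↔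
        ∃ r : ℕ, r ≤ M ∧ ∃ u : Fin r → ℕ, (∀ i j, i ≠ j → u i + u j ≤ n + 1) ∧
          Fintype.card F ^ (n + 1) + Fintype.card F * a =
            Fintype.card F * m + ∑ i, Fintype.card F ^ u i := by
      constructor
      · rintro ⟨r, hr, u, hu, h⟩
        exact ⟨r, hr, u, hu, by omega⟩
      · rintro ⟨r, hr, u, hu, h⟩
        exact ⟨r, hr, u, hu, by omega⟩
    exact h1.trans (h2.trans (h3.trans h4))

end Pool.Agent.Results.MP_f2094b_co.Strip
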